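import Pool.Agent.NH27.B.FinalB
import Pool.Agent.NH27.Q.FinalQ
import Pool.Agent.NH27.Q.GeoE

/-!
MP_26d9ad_nt, Q1: integral points on generic log surfaces of the smallest degree, with a quadric.

Let `K` be an algebraically closed field of characteristic `0`, and let `k` be a field contained in
`K`, with algebraic closure `k'` in `K`. Let `F_a`, for `a` in a finite set `A`, be forms of degrees
`d_a > 0` in `n + 1` variables over `K` such that the ratios of the coefficients of `F_a` to one of
them are, for all `a` together, algebraically independent over `k`. Let `C` be a proper subset of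
`A` with `n - 2` elements, let `V` be the surface `F_c = 0`, `c ∈ C`, in projective space of
dimension `n`, let `D` be the union of the curves `F_b = 0`, `b ∉ C`, on `V`, and let `U = V ∖ D`.
The log canonical divisor `K_V + D` of `U` is `∑ d_a - n - 1` times the hyperplane section. Suppose
that `∑ d_a = n + 2`, so that `K_V + D` is the hyperplane section: the smallest degree for which `U`
is of log general type. Suppose also that `d_c ≥ 2` for all `c ∈ C` (which is no restriction), and
that `d_c = 2` for some `c ∈ C`. These pairs are:
- in dimension `n = 3`: quadric surfaces without a generic curve of degree `6` which is a section by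
  a cubic, by a quadric and a plane, or by three planes;
- in dimension `n = 4`: del Pezzo surfaces of degree `4` without a section by a quadric or by two
  hyperplanes, and `K3` surfaces of degree `6` without a hyperplane section;
- in dimension `n = 5`: `K3` surfaces of degree `8` without a hyperplane section.
They are not covered by the results on generic pairs with `3 n + 3 ≤ 2 ∑ d_a + |C|`, because
`2 ∑ d_a + |C| = 3 n + 2`. An exceptional line is a line contained in `V` that meets `D` in at most
two points. Then:

(1) for every ring `R ⊆ K` that is contained in a finitely generated ring, all but finitely many of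
    the points of `U` over `R` lie on exceptional lines;
(2) there are only finitely many exceptional lines, and each of them contains infinitely many points
    of `U` over some finitely generated ring. If `D` is a hyperplane section (on a `K3` surface),
    there are no exceptional lines, so `U` has only finitely many points over `R`;
(3) for every form `G`: if all closed subvarieties of `U` of positive dimension that are not
    contained in `G = 0` are of log general type, then all but finitely many of the points of `U`
    over `R` are on `G = 0`. So the conjecture is true for all the open subsets `U ∖ {G = 0}`. More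
    precisely, the points of `U` over every finitely generated ring are, up to finitely many, on
    `G = 0` if and only if `G` vanishes on all exceptional lines; and if the coefficients of the
    `F_a` (not only their ratios) are algebraically independent over `k`, this holds if and only if
    all closed subvarieties of `U` of positive dimension that are not contained in `G = 0` are of log
    general type. So the arithmetic and the algebraic special set both are the union of the
    exceptional lines;
(4) for every subring `R` of a finitely generated algebra over `k'`, all points of `U` over `R` lie on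
    exceptional lines or on finitely many planes, none of which is contained in all the quadrics
    `F_c = 0`, `d_c = 2`. So the points outside of the exceptional lines are on finitely many curves
    of degree one or two.

The points over `R` of the complement of `F_b = 0` are the points for which all quotients of
monomials of degree `d_b` by `F_b` are in `R`. For the subvarieties, `L` is the function field of the
subvariety, or a finite extension of it, `w` is its dimension, and `x` is its generic point, in
homogeneous coordinates. A prime divisor `Q` over the closure of the subvariety has its centre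
outside `U` if `d_b min_i ord_Q (x_i) < ord_Q (F_b (x))` for some `b` not in `C`; `pord Q x` is the
minimum of the orders `ord_Q (x_i)`.

The proof: derivations of the field generated by the coefficients of the forms give, for every
family of forms of degrees `d_a - 1`, a section of a twist of the bundle of two-forms on `U`, in the
language of heights. If there are enough vector fields with a smaller twist, the heights of the
integral points are bounded. Otherwise the ratios of the Plücker coordinates of a plane that contains
the integral point have bounded heights; here it is used that `K_V + D` is the hyperplane section.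
This plane meets a quadric `F_c = 0` in a conic, so that the integral point is on a line or on a
conic of bounded height (theorem of Tsen), and then its height is bounded by the theorem of Mason,
because no conic on `V` meets `D` in at most two points. In an ultrapower, the limit of a sequence of
integral points is on a plane with constant coefficients, so that all integral points are on finitely
many planes. The points of the conics over finitely generated rings are given by unit equations.
-/

set_option autoImplicit false

namespace Pool.Agent.Results.MP_26d9ad_nt.SmallestDegreeSurfaces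

open MvPolynomial FF Pool.Agent.W603.PV Pool.Agent.W602.GT
open LinearAlgebra.Projectivization

/-- The points over the ring `R` of the complement of the hypersurfaces `F b = 0`, `b ∉ C`, in the
closed subset `F c = 0`, `c ∈ C`, of projective space. -/
def IntegralPoints {K A : Type} [Field K] {n : ℕ} (F : A → MvPolynomial (Fin (n + 1)) K)
    (d : A → ℕ) (C : Finset A) (R : Subring K) : Set (ℙ K (Fin (n + 1) → K)) :=
  {p | (∀ c ∈ C, eval p.rep (F c) = 0) ∧ ∀ b, b ∉ C → eval p.rep (F b) ≠ 0 ∧
    ∀ I : Fin (n + 1) →₀ ℕ, I.degree = d b → (∏ i, p.rep i ^ I i) / eval p.rep (F b) ∈ R}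

/-- A line, given by a vector space of dimension two, contained in `F c = 0` for all `c` in `C`, that
meets the union of the hypersurfaces `F b = 0`, `b ∉ C`, in at most two points. -/
def Exceptional {K A : Type} [Field K] {n : ℕ} (F : A → MvPolynomial (Fin (n + 1)) K)
    (C : Finset A) (W : Submodule K (Fin (n + 1) → K)) : Prop :=
  Module.finrank K W = 2 ∧ (∀ c ∈ C, ∀ v ∈ W, eval v (F c) = 0) ∧
    {p : ℙ K (Fin (n + 1) → K) | p.rep ∈ W ∧ ∃ b, b ∉ C ∧ eval p.rep (F b) = 0}.encard ≤ 2

/-- Over every finitely generated ring, there are only finitely many points outside of `G = 0`. -/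
def FiniteOutside {K A : Type} [Field K] {n : ℕ} (F : A → MvPolynomial (Fin (n + 1)) K)
    (d : A → ℕ) (C : Finset A) (G : MvPolynomial (Fin (n + 1)) K) : Prop :=
  ∀ (T : Finset K) (R : Subring K), R ≤ Subring.closure (T : Set K) →
    {p | p ∈ IntegralPoints F d C R ∧ eval p.rep G ≠ 0}.Finite

/-- `L` is (a finite extension of) the function field, and `x` the generic point, of a closed
subvariety of dimension `w` of `U`. -/
def Subvariety {K L A : Type} [Field K] [Field L] [Algebra K L] {n : ℕ}
    (F : A → MvPolynomial (Fin (n + 1)) K) (C : Finset A) (w : ℕ) (x : Fin (n + 1) → L) : Prop :=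
  (x ≠ 0 ∧ (∀ c ∈ C, aeval x (F c) = 0) ∧ ∀ b, b ∉ C → aeval x (F b) ≠ 0) ∧
    Algebra.trdeg K L = w ∧ Algebra.IsAlgebraic (coords K x) L

/-- All closed subvarieties of positive dimension that are not contained in `G = 0` are of log
general type. -/
def LogGTOutside {K A : Type} [Field K] {n : ℕ} (F : A → MvPolynomial (Fin (n + 1)) K)
    (d : A → ℕ) (C : Finset A) (G : MvPolynomial (Fin (n + 1)) K) : Prop :=
  ∀ (L : Type) [Field L] [Algebra K L] (w : ℕ) (x : Fin (n + 1) → L), 0 < w →
    Subvariety F C w x → aeval x G ≠ 0 → LogGeneralType K L w fun Q : Place K L =>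
      ∃ b, b ∉ C ∧ d b * pord Q x < Q.ord (aeval x (F b))

theorem result {k K : Type} [Field k] [Field K] [IsAlgClosed K] [CharZero K] [Algebra k K]
    {n : ℕ} {A : Type} [Fintype A] [DecidableEq A] {d : A → ℕ}
    -- the degrees
    (hd0 : ∀ a, 0 < d a) (C : Finset A) (hC : C ≠ Finset.univ) (hCn : C.card + 2 = n)
    (hd : ∑ a, d a = n + 2) (hd2 : ∀ c ∈ C, 2 ≤ d c) (hq : ∃ c ∈ C, d c = 2)
    -- generic forms
    (F : A → MvPolynomial (Fin (n + 1)) K) (hF : ∀ a, (F a).IsHomogeneous (d a))
    (I0 : ∀ a, {I : Fin (n + 1) →₀ ℕ // I.degree = d a}) (h0 : ∀ a, (F a).coeff (I0 a).1 ≠ 0)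
    (hgen : AlgebraicIndependent k
      fun p : (a : A) × {I : {I : Fin (n + 1) →₀ ℕ // I.degree = d a} // I ≠ I0 a} =>
        (F p.1).coeff p.2.1.1 / (F p.1).coeff (I0 p.1).1) :
    -- (1) the points over finitely generated rings
    (∀ (T : Finset K) (R : Subring K), R ≤ Subring.closure (T : Set K) →
      {p | p ∈ IntegralPoints F d C R ∧ ¬ ∃ W, Exceptional F C W ∧ p.rep ∈ W}.Finite) ∧
    -- (2) the exceptional lines
    ({W | Exceptional F C W}.Finite ∧
      (∀ W, Exceptional F C W → ∃ T : Finset K,
        {p | p ∈ IntegralPoints F d C (Subring.closure (T : Set K)) ∧ p.rep ∈ W}.Infinite) ∧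
      (∑ b ∈ Cᶜ, d b = 1 → (∀ W, ¬ Exceptional F C W) ∧
        ∀ (T : Finset K) (R : Subring K), R ≤ Subring.closure (T : Set K) →
          (IntegralPoints F d C R).Finite)) ∧
    -- (3) the conjecture, and the special sets
    (∀ (G : MvPolynomial (Fin (n + 1)) K) (e : ℕ), G.IsHomogeneous e →
      (LogGTOutside F d C G → FiniteOutside F d C G) ∧
      (FiniteOutside F d C G ↔ ∀ W, Exceptional F C W → ∀ v ∈ W, eval v G = 0) ∧
      (AlgebraicIndependent k
        (fun p : (a : A) × {I : Fin (n + 1) →₀ ℕ // I.degree = d a} => (F p.1).coeff p.2.1) →
        (FiniteOutside F d C G ↔ LogGTOutside F d C G))) ∧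
    -- (4) the points over the subrings of finitely generated algebras over the algebraic closure
    -- of `k`
    ∀ (T : Finset K) (R : Subring K),
      R ≤ Subring.closure ((algebraicClosure k K : Set K) ∪ (T : Set K)) →
      ∃ P : Set (Submodule K (Fin (n + 1) → K)), P.Finite ∧
        (∀ W ∈ P, Module.finrank K W = 3 ∧ ∃ c ∈ C, d c = 2 ∧ ∃ v ∈ W, eval v (F c) ≠ 0) ∧
        ∀ p ∈ IntegralPoints F d C R, (∃ W, Exceptional F C W ∧ p.rep ∈ W) ∨
          ∃ W ∈ P, p.rep ∈ W := by
  classical
  have hb : ∃ b, b ∉ C := by
    by_contra hcon
    push Not at hcon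
    exact hC (Finset.eq_univ_iff_forall.2 hcon)
  have h2 : Pool.Agent.NH27.B.Bd2 n d C := ⟨hCn, hd, hd2, hq, hb⟩
  have hind := Pool.Agent.Y741.ind_flat hgen
  have hR : ∀ R : Subring K, IntegralPoints F d C R = Pool.Agent.Y741.RPts F d C R := fun R => rfl
  have hE : ∀ W, Exceptional F C W ↔ Pool.Agent.Y741.ExL F C W := fun W =>
    ⟨fun h => ⟨⟨h.1, h.2.1⟩, h.2.2⟩, fun h => ⟨h.1.1, h.1.2, h.2⟩⟩
  have hL : ∀ G : MvPolynomial (Fin (n + 1)) K, LogGTOutside F d C G ↔
      Pool.Agent.Y741.StrL F d C G := fun G => Iff.rfl
  have hfg := fun (T : Finset K) (R : Subring K) (hRT : R ≤ Subring.closure (T : Set K)) =>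
    Pool.Agent.NH27.B.main_fgB hd0 h2 F hF _ h0 hind T R hRT
  refine ⟨fun T R hRT => ?_, ⟨?_, fun W hW => ?_, fun hβ => ?_⟩, fun G e hG => ?_,
    fun T R hRT => ?_⟩
  · rw [hR]
    simp only [hE]
    exact hfg T R hRT
  · simp only [hE]
    exact Pool.Agent.NH27.B.exc_finiteB (k := k) hd0 C hb (by rw [hd]; omega) F hF _ h0 hind
  · obtain ⟨T, hT⟩ := Pool.Agent.Y741.conv_line hF ((hE W).1 hW).1 ((hE W).1 hW).2
    exact ⟨T, hT⟩
  · have hno : ∀ W, ¬ Exceptional F C W := fun W hW =>
      Pool.Agent.NH27.B.no_lines (k := k) h2 hβ F hF _ h0 hind W ((hE W).1 hW).1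
    refine ⟨hno, fun T R hRT => (hfg T R hRT).subset ?_⟩
    intro p hp
    refine ⟨hp, ?_⟩
    rintro ⟨W, hW, -⟩
    exact hno W ((hE W).2 hW)
  · have h1 := Pool.Agent.NH27.B.arithB hd0 h2 F hF _ h0 hind hG
    have h3 : FiniteOutside F d C G ↔ ∀ W, Exceptional F C W → ∀ v ∈ W, eval v G = 0 := by
      simp only [hE]
      exact h1.symm
    refine ⟨fun h => ?_, h3, fun hind' => ?_⟩
    · rw [h3]
      intro W hW
      exact Pool.Agent.NH27.Q.form_of_lgt hF hG ((hL G).1 h) W ((hE W).1 hW)
    · have h4 := Pool.Agent.NH27.Q.strL_iff2 (k0 := k) (by omega) hd0 hF hind' hb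
        (by rw [hd]; omega) hG
      rw [h3, hL, h4]
      simp only [hE]
  · obtain ⟨P, hP1, hP2, hP3⟩ := Pool.Agent.NH27.B.main_planesR hd0 h2 F hF _ h0 hind T R hRT
    refine ⟨P, hP1, hP2, fun p hp => ?_⟩
    rcases hP3 p hp with ⟨W, hW, hpW⟩ | h
    · exact Or.inl ⟨W, (hE W).2 hW, hpW⟩
    · exact Or.inr h

end Pool.Agent.Results.MP_26d9ad_nt.SmallestDegreeSurfaces
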